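import Pool.Agent.Helper6.MONO.Stmts

set_option autoImplicit false
noncomputable section
namespace Pool.Agent.Helper6.MONO

theorem alt_univ : ∀ c d e : Fin 3, (c ≠ d ∧ d ≠ e ∧ e ≠ c) →
    (Finset.univ : Finset (Fin 3)) = {c, d, e} := by decide

theorem alt_sum (c d e : Fin 3) (h : Dist c d e) (F : Fin 3 → ℂ) :
    ∑ j, F j = F c + F d + F e := by
  rw [alt_univ c d e h, Finset.sum_insert, Finset.sum_insert, Finset.sum_singleton]
  · ring
  · simpa using h.2.1
  · simp only [Finset.mem_insert, Finset.mem_singleton, not_or]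
    exact ⟨h.1, fun h1 => h.2.2 h1.symm⟩

theorem alt_snoc : ∀ (n : ℕ) (i j : Fin 3),
    alt i j (n + 1) = alt i j n ++ [if n % 2 = 0 then i else j] := by
  intro n
  induction n with
  | zero => intro i j; rfl
  | succ n ih =>
    intro i j
    rw [alt, ih j i, alt, List.cons_append]
    congr 3
    rcases Nat.mod_two_eq_zero_or_one n with h | h
    · have h1 : (n + 1) % 2 = 1 := by omega
      simp [h, h1]
    · have h1 : (n + 1) % 2 = 0 := by omega
      simp [h, h1]

theorem alt_blk (d e : Fin 3) (ε : Bool) (m : ℕ) (hm : 1 ≤ m) :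
    blk d e ε (m + 1) = blk d e ε m ++ [if m % 2 = 0 then d else e] := by
  cases ε
  · simp only [blk, Bool.false_eq_true, if_false]
    obtain ⟨k, rfl⟩ : ∃ k, m = k + 1 := ⟨m - 1, by omega⟩
    rw [show k + 1 + 1 - 1 = k + 1 from rfl, show k + 1 - 1 = k from rfl, alt_snoc]
    congr 2
    rcases Nat.mod_two_eq_zero_or_one k with h | h
    · have h1 : (k + 1) % 2 = 1 := by omega
      simp [h, h1]
    · have h1 : (k + 1) % 2 = 0 := by omega
      simp [h, h1]
  · simp only [blk, if_true]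
    rw [alt_snoc]

theorem alt_gact (G : Fin 3 → Fin 3 → ℂ) (w : List (Fin 3)) (i : Fin 3) (x : Fin 3 → ℂ) :
    gact G (w ++ [i]) x = fire G i (gact G w x) := by
  simp [gact, List.foldl_append]

theorem alt_core (G : Fin 3 → Fin 3 → ℂ) (c d e : Fin 3) (hD : Dist c d e) (x : V3)
    (κ : ℂ) (hκ : κ ≠ 0) (hg : G e d * G d e = κ ^ 2) (A B f pe pd : ℂ)
    (hA : A = G c d * x c) (hB : B = G c e * x c) (hf : f = 2 * x d - G e d * x e - A)
    (h1 : 2 * pd = G e d * pe + A) (h2 : 2 * pe = G d e * pd + B) (C S : ℕ → ℂ)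
    (C0 : C 0 = 1) (C1 : C 1 = κ / 2) (S0 : S 0 = 0) (S1 : S 1 = 1)
    (hC : ∀ m, C (m + 2) = κ * C (m + 1) - C m) (hS : ∀ m, S (m + 2) = κ * S (m + 1) - S m)
    (ε : Bool) (σ : ℂ) (hσ : σ = if ε then 1 else -1) : ∀ m : ℕ,
    gact G (blk d e ε (m + 1)) x c = x c ∧
    ((m + 1) % 2 = 0 →
      gact G (blk d e ε (m + 1)) x e =
        pe + (x e - pe) * C (m + 1) - σ * (G d e / κ) * f * S (m + 1) / 2 ∧
      gact G (blk d e ε (m + 1)) x d =
        pd + (G e d / κ) * (x e - pe) * C m - σ * f * S m / 2) ∧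
    ((m + 1) % 2 = 1 →
      gact G (blk d e ε (m + 1)) x d =
        pd + (G e d / κ) * (x e - pe) * C (m + 1) - σ * f * S (m + 1) / 2 ∧
      gact G (blk d e ε (m + 1)) x e =
        pe + (x e - pe) * C m - σ * (G d e / κ) * f * S m / 2) := by
  have hcd : c ≠ d := hD.1
  have hde : d ≠ e := hD.2.1
  have hec : e ≠ c := hD.2.2
  have fd : ∀ y : V3, fire G d y d = -y d + (G c d * y c + G e d * y e) := by
    intro y
    simp only [fire, if_true]
    rw [alt_sum c d e hD]
    simp [hcd, hde.symm]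
  have fe : ∀ y : V3, fire G e y e = -y e + (G c e * y c + G d e * y d) := by
    intro y
    simp only [fire, if_true]
    rw [alt_sum c d e hD]
    simp [hec.symm, hde]
  have fo : ∀ (y : V3) (i k : Fin 3), k ≠ i → fire G i y k = y k := by
    intro y i k hk
    simp [fire, hk]
  intro m
  induction m with
  | zero =>
    rw [show (0 + 1 : ℕ) = 1 from rfl]
    cases ε
    · have e1 : gact G (blk d e false 1) x = x := rfl
      rw [e1, hσ]
      refine ⟨rfl, fun h => absurd h (by norm_num), fun _ => ⟨?_, ?_⟩⟩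
      · rw [C1, S1]
        simp only [Bool.false_eq_true, if_false]
        field_simp
        linear_combination (-1 : ℂ) * hf - h1
      · rw [C0, S0]; ring
    · have e1 : gact G (blk d e true 1) x = fire G d x := rfl
      rw [e1, hσ]
      refine ⟨fo x d c hcd, fun h => absurd h (by norm_num), fun _ => ⟨?_, ?_⟩⟩
      · rw [fd, C1, S1]
        simp only [if_true]
        field_simp
        linear_combination hf - h1 - 2 * hA
      · rw [fo x d e hde.symm, C0, S0]; ring
  | succ m ih =>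
    obtain ⟨i0, ie, io⟩ := ih
    rw [alt_blk d e ε (m + 1) (by omega), alt_gact]
    set y := gact G (blk d e ε (m + 1)) x with hy
    rcases Nat.mod_two_eq_zero_or_one (m + 1) with h | h
    · obtain ⟨j1, j2⟩ := ie h
      rw [if_pos h]
      refine ⟨by rw [fo y d c hcd, i0], fun h' => by omega, fun _ => ⟨?_, ?_⟩⟩
      · rw [fd, i0, j1, j2, show m + 1 + 1 = m + 2 from rfl, hC, hS]
        field_simp
        rw [hA] at h1
        linear_combination (-2 : ℂ) * κ * h1 - σ * f * S (m + 1) * hg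
      · rw [fo y d e hde.symm, j1]
    · obtain ⟨j1, j2⟩ := io h
      rw [if_neg (by omega)]
      refine ⟨by rw [fo y e c hec.symm, i0], fun _ => ⟨?_, ?_⟩, fun h' => by omega⟩
      · rw [fe, i0, j1, j2, show m + 1 + 1 = m + 2 from rfl, hC, hS]
        field_simp
        rw [hB] at h2
        linear_combination (-2 : ℂ) * κ * h2 + 2 * (x e - pe) * C (m + 1) * hg
      · rw [fo y e d hde, j1]

theorem st_ALT : ST_ALT := by
  intro G φ κ c d e x hD hG hκ hs hκ0 hn ε m hm A B f pe pd C S σ y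
  obtain ⟨k, rfl⟩ : ∃ k, m = k + 1 := ⟨m - 1, by omega⟩
  have hκC : (κ : ℂ) ≠ 0 := by exact_mod_cast hκ0
  have hsC : ((Real.sin φ : ℝ) : ℂ) ≠ 0 := by exact_mod_cast hs
  have hg : G e d * G d e = (κ : ℂ) ^ 2 := by
    rw [hG d e, ← hn]
    exact Complex.conj_mul' (G d e)
  have hden : ((4 - κ ^ 2 : ℝ) : ℂ) ≠ 0 := by
    have : 4 - κ ^ 2 = 4 * Real.sin φ ^ 2 := by
      rw [hκ, Real.sin_sq]; ring
    rw [this]
    exact_mod_cast (by positivity : 4 * Real.sin φ ^ 2 ≠ 0)
  have hden' : (4 - (κ : ℂ) ^ 2) ≠ 0 := by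
    intro h; apply hden; push_cast; exact h
  have h1 : 2 * pd = G e d * pe + A := by
    simp only [pd, pe]
    push_cast
    field_simp
    linear_combination (-A) * hg
  have h2 : 2 * pe = G d e * pd + B := by
    simp only [pd, pe]
    push_cast
    field_simp
    linear_combination (-B) * hg
  have hrecC : ∀ n : ℕ, C (n + 2) = (κ : ℂ) * C (n + 1) - C n := by
    intro n
    simp only [C]
    have : Real.cos ((n + 2 : ℕ) * φ) = κ * Real.cos ((n + 1 : ℕ) * φ) - Real.cos (n * φ) := by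
      have e1 : ((n + 2 : ℕ) : ℝ) * φ = ((n + 1 : ℕ) : ℝ) * φ + φ := by push_cast; ring
      have e2 : ((n : ℕ) : ℝ) * φ = ((n + 1 : ℕ) : ℝ) * φ - φ := by push_cast; ring
      rw [e1, e2, Real.cos_add, Real.cos_sub, hκ]; ring
    rw [this]; push_cast; ring
  have hrecS : ∀ n : ℕ, S (n + 2) = (κ : ℂ) * S (n + 1) - S n := by
    intro n
    simp only [S]
    have : Real.sin ((n + 2 : ℕ) * φ) / Real.sin φ =
        κ * (Real.sin ((n + 1 : ℕ) * φ) / Real.sin φ) - Real.sin (n * φ) / Real.sin φ := by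
      have e1 : ((n + 2 : ℕ) : ℝ) * φ = ((n + 1 : ℕ) : ℝ) * φ + φ := by push_cast; ring
      have e2 : ((n : ℕ) : ℝ) * φ = ((n + 1 : ℕ) : ℝ) * φ - φ := by push_cast; ring
      rw [e1, e2, Real.sin_add, Real.sin_sub, hκ]
      field_simp
      ring
    rw [this]; push_cast; ring
  have c0 : C 0 = 1 := by simp [C]
  have c1 : C 1 = (κ : ℂ) / 2 := by
    simp only [C]
    rw [Nat.cast_one, one_mul, hκ]
    push_cast; ring
  have s0 : S 0 = 0 := by simp [S]
  have s1 : S 1 = 1 := by
    simp only [S]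
    rw [Nat.cast_one, one_mul, div_self hs]
    norm_num
  exact alt_core G c d e hD x κ hκC hg A B f pe pd rfl rfl rfl h1 h2 C S c0 c1 s0 s1 hrecC hrecS
    ε σ rfl k

end Pool.Agent.Helper6.MONO
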