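import Pool.Agent.Helper6.MONO.Stmts

set_option autoImplicit false
noncomputable section
namespace Pool.Agent.Helper6.MONO

theorem tl2_smul_left (a : ℂ) (x y : V3) : hf (a • x) y = a * hf x y := by
  simp only [hf, Pi.smul_apply, smul_eq_mul]; ring

theorem tl2_smul_right (a : ℂ) (x y : V3) : hf x (a • y) = star a * hf x y := by
  simp only [hf, Pi.smul_apply, smul_eq_mul, star_mul']; ring

theorem tl2_add_left (x y z : V3) : hf (x + y) z = hf x z + hf y z := by
  simp only [hf, Pi.add_apply]; ring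

theorem tl2_add_right (x y z : V3) : hf x (y + z) = hf x y + hf x z := by
  simp only [hf, Pi.add_apply, star_add]; ring

theorem tl2_symm (x y : V3) : hf y x = star (hf x y) := by
  simp only [hf, star_sub, star_add, star_mul', star_star]; ring

theorem tl2_self (x : V3) : hf x x = (((hf x x).re : ℝ) : ℂ) := by
  have h : hf x x = star (hf x x) := tl2_symm x x
  exact (Complex.conj_eq_iff_real.1 h.symm).elim (fun r hr => by rw [hr]; simp)

theorem tl2_selfre (x : V3) : (hf x x).re = ‖x 0‖ ^ 2 + ‖x 1‖ ^ 2 - ‖x 2‖ ^ 2 := by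
  have h : ∀ z : ℂ, (z * star z).re = ‖z‖ ^ 2 := by
    intro z
    rw [← Complex.normSq_eq_norm_sq, Complex.normSq_apply]
    simp [Complex.mul_re]
  simp only [hf, Complex.sub_re, Complex.add_re, h]

/-- reversed Cauchy-Schwarz -/
theorem tl2_rcs (x y : V3) (hx : Neg x) (hy : Neg y) :
    Real.sqrt ((hf x x).re * (hf y y).re) ≤ ‖hf x y‖ := by
  unfold Neg at hx hy
  rw [tl2_selfre] at hx hy
  rw [tl2_selfre, tl2_selfre]
  set p := Real.sqrt (‖x 0‖ ^ 2 + ‖x 1‖ ^ 2) with hp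
  set q := Real.sqrt (‖y 0‖ ^ 2 + ‖y 1‖ ^ 2) with hq
  have hp0 : 0 ≤ p := Real.sqrt_nonneg _
  have hq0 : 0 ≤ q := Real.sqrt_nonneg _
  have hp2 : p ^ 2 = ‖x 0‖ ^ 2 + ‖x 1‖ ^ 2 := Real.sq_sqrt (by positivity)
  have hq2 : q ^ 2 = ‖y 0‖ ^ 2 + ‖y 1‖ ^ 2 := Real.sq_sqrt (by positivity)
  have ha : p < ‖x 2‖ := by
    apply lt_of_pow_lt_pow_left₀ 2 (norm_nonneg _); rw [hp2]; linarith
  have hb : q < ‖y 2‖ := by
    apply lt_of_pow_lt_pow_left₀ 2 (norm_nonneg _); rw [hq2]; linarith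
  have hcs : ‖x 0 * star (y 0) + x 1 * star (y 1)‖ ≤ p * q := by
    have h1 : ‖x 0 * star (y 0) + x 1 * star (y 1)‖ ≤ ‖x 0‖ * ‖y 0‖ + ‖x 1‖ * ‖y 1‖ := by
      refine (norm_add_le _ _).trans ?_
      rw [norm_mul, norm_mul, norm_star, norm_star]
    refine h1.trans ?_
    apply (pow_le_pow_iff_left₀ (by positivity) (by positivity) two_ne_zero).1
    rw [mul_pow, hp2, hq2]
    nlinarith [sq_nonneg (‖x 0‖ * ‖y 1‖ - ‖x 1‖ * ‖y 0‖)]
  have hlow : ‖x 2‖ * ‖y 2‖ - p * q ≤ ‖hf x y‖ := by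
    have h2 : ‖x 2 * star (y 2)‖ - ‖x 0 * star (y 0) + x 1 * star (y 1)‖ ≤ ‖hf x y‖ := by
      have : hf x y = -(x 2 * star (y 2) - (x 0 * star (y 0) + x 1 * star (y 1))) := by
        unfold hf; ring
      rw [this, norm_neg]
      exact norm_sub_norm_le _ _
    rw [norm_mul, norm_star] at h2
    linarith
  refine le_trans ?_ hlow
  have h0 : 0 ≤ ‖x 2‖ * ‖y 2‖ - p * q := by
    have := mul_le_mul ha.le hb.le hq0 (norm_nonneg _)
    linarith
  apply Real.sqrt_le_iff.2 ⟨h0, ?_⟩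
  have e1 : (‖x 0‖ ^ 2 + ‖x 1‖ ^ 2 - ‖x 2‖ ^ 2) * (‖y 0‖ ^ 2 + ‖y 1‖ ^ 2 - ‖y 2‖ ^ 2) =
      (p ^ 2 - ‖x 2‖ ^ 2) * (q ^ 2 - ‖y 2‖ ^ 2) := by rw [hp2, hq2]
  rw [e1]
  nlinarith [sq_nonneg (‖x 2‖ * q - ‖y 2‖ * p)]

theorem tl2_hd_smul (a b : ℂ) (ha : a ≠ 0) (hb : b ≠ 0) (x y : V3) :
    hd (a • x) (b • y) = hd x y := by
  have h1 : ‖hf (a • x) (b • y)‖ = ‖a‖ * ‖b‖ * ‖hf x y‖ := by
    rw [tl2_smul_left, tl2_smul_right, norm_mul, norm_mul, norm_star]; ring
  have h2 : ∀ (c : ℂ) (z : V3), (hf (c • z) (c • z)).re = ‖c‖ ^ 2 * (hf z z).re := by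
    intro c z
    rw [tl2_selfre, tl2_selfre]
    simp only [Pi.smul_apply, smul_eq_mul, norm_mul]
    ring
  have ha' : 0 < ‖a‖ := norm_pos_iff.2 ha
  have hb' : 0 < ‖b‖ := norm_pos_iff.2 hb
  unfold hd
  rw [h1, h2, h2]
  have h3 : Real.sqrt (‖a‖ ^ 2 * (hf x x).re * (‖b‖ ^ 2 * (hf y y).re)) =
      ‖a‖ * ‖b‖ * Real.sqrt ((hf x x).re * (hf y y).re) := by
    rw [show ‖a‖ ^ 2 * (hf x x).re * (‖b‖ ^ 2 * (hf y y).re) =
      (‖a‖ * ‖b‖) ^ 2 * ((hf x x).re * (hf y y).re) by ring]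
    rw [Real.sqrt_mul (by positivity), Real.sqrt_sq (by positivity)]
  rw [h3, mul_div_mul_left _ _ (by positivity)]

theorem tl2_two (t : ℝ) (ht : 1 ≤ t) : 2 * Real.arcosh t = Real.arcosh (2 * t ^ 2 - 1) := by
  have h1 : Real.cosh (2 * Real.arcosh t) = 2 * t ^ 2 - 1 := by
    rw [Real.cosh_two_mul, Real.sinh_sq, Real.cosh_arcosh ht]; ring
  rw [← h1, Real.arcosh_cosh (by have := Real.arcosh_nonneg ht; linarith)]

theorem tl2_norm1 (h : ST_TL1) (g : E3) (hg : Pres g) (x : V3) (hx : hf x x = -1) :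
    ∃ m : V3, Neg m ∧ 2 * hd m (g m) ≤ hd x (g (g x)) := by
  have hxn : Neg x := by unfold Neg; rw [hx]; norm_num
  have hgx : hf (g x) (g x) = -1 := by rw [hg, hx]
  have hggx : hf (g (g x)) (g (g x)) = -1 := by rw [hg, hgx]
  have hgn : Neg (g x) := by unfold Neg; rw [hgx]; norm_num
  have hggn : Neg (g (g x)) := by unfold Neg; rw [hggx]; norm_num
  have hsq : ∀ u v : V3, hf u u = -1 → hf v v = -1 → hd u v = 2 * Real.arcosh ‖hf u v‖ := by
    intro u v hu hv
    unfold hd; rw [hu, hv]; norm_num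
  have hge : ∀ u v : V3, hf u u = -1 → hf v v = -1 → 1 ≤ ‖hf u v‖ := by
    intro u v hu hv
    have := tl2_rcs u v (by unfold Neg; rw [hu]; norm_num) (by unfold Neg; rw [hv]; norm_num)
    rw [hu, hv] at this
    norm_num at this
    exact this
  set c := ‖hf x (g x)‖ with hc
  have hc1 : 1 ≤ c := hge _ _ hx hgx
  obtain ⟨μ, hμ1, hμ2⟩ : ∃ μ : ℂ, ‖μ‖ = 1 ∧ star μ * hf x (g x) = -(c : ℂ) := by
    have hne : hf x (g x) ≠ 0 := by
      intro h0; rw [hc, h0, norm_zero] at hc1; linarith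
    refine ⟨-(hf x (g x) / (c : ℂ)), ?_, ?_⟩
    · rw [norm_neg, norm_div, Complex.norm_real, ← hc, Real.norm_of_nonneg (by linarith),
        div_self (by linarith)]
    · have hcc : (c : ℂ) ≠ 0 := by exact_mod_cast (by linarith : c ≠ 0)
      rw [star_neg, star_div₀]
      have h1 : star (hf x (g x)) * hf x (g x) = (c : ℂ) ^ 2 := by
        rw [hc]
        have := Complex.conj_mul' (hf x (g x))
        exact this
      have h2 : star (c : ℂ) = (c : ℂ) := Complex.conj_ofReal c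
      rw [h2, neg_mul, div_mul_eq_mul_div, h1]
      field_simp
  have hμs : star μ * μ = 1 := by
    have := Complex.conj_mul' μ
    rw [hμ1] at this
    simpa using this
  have hμ0 : μ ≠ 0 := by intro h0; rw [h0, norm_zero] at hμ1; exact zero_ne_one hμ1
  set y : V3 := μ • g x with hy
  set z : V3 := μ • g y with hz
  have hxy : hf x y = -(c : ℂ) := by rw [hy, tl2_smul_right, hμ2]
  have hpres : ∀ u v : V3, hf (μ • g u) (μ • g v) = hf u v := by
    intro u v
    rw [tl2_smul_left, tl2_smul_right, hg, ← mul_assoc, mul_comm μ, hμs, one_mul]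
  have hyz : hf y z = -(c : ℂ) := by
    rw [hz]; nth_rw 1 [hy]; rw [hpres, hxy]
  have hyy : hf y y = -1 := by rw [hy, hpres, hx]
  have hyx : hf y x = -(c : ℂ) := by
    rw [tl2_symm, hxy, star_neg]
    congr 1
    exact Complex.conj_ofReal c
  have hzz : z = (μ * μ) • g (g x) := by
    rw [hz, hy, map_smul, smul_smul]
  set C := ‖hf x (g (g x))‖ with hC
  have hC1 : 1 ≤ C := hge _ _ hx hggx
  have hxz : ‖hf x z‖ = C := by
    rw [hzz, tl2_smul_right, norm_mul, norm_star, norm_mul, hμ1, hC]; ring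
  -- triangle inequality
  have hCc : C ≤ 2 * c ^ 2 - 1 := by
    have h1 := h x (g x) (g (g x)) hxn hgn hggn
    rw [hsq _ _ hx hggx, hsq _ _ hx hgx, hsq _ _ hgx hggx, hg] at h1
    rw [← hC, ← hc] at h1
    have h2 : Real.arcosh C ≤ 2 * Real.arcosh c := by linarith
    rw [tl2_two c hc1] at h2
    exact (Real.arcosh_le_arcosh (by linarith) (by nlinarith)).1 h2
  refine ⟨x + y, ?_, ?_⟩
  · unfold Neg
    rw [tl2_add_left, tl2_add_right, tl2_add_right, hx, hxy, hyx, hyy]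
    simp only [Complex.add_re, Complex.neg_re, Complex.one_re, Complex.ofReal_re]
    linarith
  · set m : V3 := x + y with hm
    have hmm : (hf m m).re = -(2 * (1 + c)) := by
      rw [hm, tl2_add_left, tl2_add_right, tl2_add_right, hx, hxy, hyx, hyy]
      simp only [Complex.add_re, Complex.neg_re, Complex.one_re, Complex.ofReal_re]
      ring
    have hgm : μ • g m = y + z := by
      rw [hm, map_add, smul_add, ← hz]
    have hd1 : hd m (g m) = hd m (μ • g m) := by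
      have := tl2_hd_smul 1 μ one_ne_zero hμ0 m (g m)
      rw [one_smul] at this
      exact this.symm
    have hmm2 : (hf (μ • g m) (μ • g m)).re = -(2 * (1 + c)) := by rw [hpres, hmm]
    set w := hf x z with hw
    have hmh : hf m (μ • g m) = -((1 + 2 * c : ℝ) : ℂ) + w := by
      rw [hgm, hm, tl2_add_left, tl2_add_right, tl2_add_right, hxy, hyy, hyz]
      push_cast; ring
    set t := ‖hf m (μ • g m)‖ / (2 * (1 + c)) with ht
    have hsq2 : Real.sqrt ((hf m m).re * (hf (μ • g m) (μ • g m)).re) = 2 * (1 + c) := by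
      rw [hmm, hmm2, neg_mul_neg, Real.sqrt_mul_self (by linarith)]
    have hmN : Neg m := by unfold Neg; rw [hmm]; linarith
    have hmN2 : Neg (μ • g m) := by unfold Neg; rw [hmm2]; linarith
    have ht1 : 1 ≤ t := by
      have := tl2_rcs m (μ • g m) hmN hmN2
      rw [hsq2] at this
      rw [ht, le_div_iff₀ (by linarith)]; linarith
    have hd2 : hd m (μ • g m) = 2 * Real.arcosh t := by
      unfold hd; rw [hsq2, ht]
    rw [hd1, hd2, hsq _ _ hx hggx, tl2_two t ht1, ← hC]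
    have hnorm : ‖hf m (μ • g m)‖ ≤ 1 + 2 * c + C := by
      rw [hmh]
      refine (norm_add_le _ _).trans ?_
      rw [norm_neg, Complex.norm_real, Real.norm_of_nonneg (by linarith), hxz]
    have hkey : 2 * t ^ 2 - 1 ≤ C := by
      have h1 : t * (2 * (1 + c)) ≤ 1 + 2 * c + C := by
        rw [ht, div_mul_cancel₀ _ (by linarith)]; exact hnorm
      have h2 : (t * (2 * (1 + c))) ^ 2 ≤ (1 + 2 * c + C) ^ 2 :=
        pow_le_pow_left₀ (by positivity) h1 2
      have h3 : (1 + 2 * c + C) ^ 2 ≤ 2 * (1 + c) ^ 2 * (1 + C) := by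
        nlinarith [mul_nonneg (by linarith : (0:ℝ) ≤ C - 1) (by linarith : (0:ℝ) ≤ 2 * c ^ 2 - 1 - C)]
      have h4 : (1 + c) ^ 2 * (2 * t ^ 2) ≤ (1 + c) ^ 2 * (1 + C) := by nlinarith
      have h5 := le_of_mul_le_mul_left h4 (by positivity)
      linarith
    have := (Real.arcosh_le_arcosh (by nlinarith : 0 < 2 * t ^ 2 - 1) (by linarith : 0 < C)).2 hkey
    linarith

theorem st_TL2 (h : ST_TL1) : ST_TL2 := by
  intro g hg x hx
  have hN : 0 < -(hf x x).re := by unfold Neg at hx; linarith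
  set N := -(hf x x).re with hNd
  set a : ℂ := ((1 / Real.sqrt N : ℝ) : ℂ) with ha
  have hs : 0 < Real.sqrt N := Real.sqrt_pos.2 hN
  have ha0 : a ≠ 0 := by
    rw [ha]; exact_mod_cast (by positivity : (1 / Real.sqrt N) ≠ 0)
  have hax : hf (a • x) (a • x) = -1 := by
    rw [tl2_smul_left, tl2_smul_right, tl2_self x]
    have h1 : star a = a := by rw [ha]; exact Complex.conj_ofReal _
    rw [h1, ha]
    have h2 : (hf x x).re = -N := by rw [hNd]; ring
    rw [h2]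
    have h3 : (1 / Real.sqrt N) * ((1 / Real.sqrt N) * (-N)) = -1 := by
      have := Real.mul_self_sqrt hN.le
      field_simp
      nlinarith
    exact_mod_cast h3
  obtain ⟨m, hm1, hm2⟩ := tl2_norm1 h g hg (a • x) hax
  refine ⟨m, hm1, ?_⟩
  rw [map_smul, map_smul, tl2_hd_smul a a ha0 ha0] at hm2
  exact hm2

end Pool.Agent.Helper6.MONO
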