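import Pool.Agent.Helper6.MONO.Stmts

set_option autoImplicit false
noncomputable section
namespace Pool.Agent.Helper6.MONO

theorem exi_cos (p : ℕ) (hp : 4 ≤ p) : 1 / Real.sqrt 2 ≤ Real.cos (Real.pi / p) ∧
    Real.cos (Real.pi / p) < 1 := by
  have hp' : (4 : ℝ) ≤ p := by exact_mod_cast hp
  have hpi := Real.pi_pos
  have h1 : Real.pi / p ≤ Real.pi / 4 := div_le_div_of_nonneg_left hpi.le (by norm_num) hp'
  have h2 : 0 < Real.pi / p := by positivity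
  constructor
  · have h3 : Real.cos (Real.pi / 4) ≤ Real.cos (Real.pi / p) :=
      Real.cos_le_cos_of_nonneg_of_le_pi h2.le (by linarith) h1
    rw [Real.cos_pi_div_four] at h3
    refine le_trans (le_of_eq ?_) h3
    have : Real.sqrt 2 ≠ 0 := by positivity
    field_simp
    exact (Real.sq_sqrt (by norm_num)).symm
  · have h3 : Real.cos (Real.pi / p) < Real.cos 0 :=
      Real.cos_lt_cos_of_nonneg_of_le_pi (le_refl _) (by linarith) h2
    rwa [Real.cos_zero] at h3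

theorem exi_ns (z : ℂ) : z * star z = ((‖z‖ ^ 2 : ℝ) : ℂ) := by
  have := Complex.mul_conj' z
  push_cast
  exact this

theorem exi_hf (a b c a' b' c' : ℂ) :
    hf ![a, b, c] ![a', b', c'] = a * star a' + b * star b' - c * star c' := rfl

theorem exi_unit1 (c s : ℝ) (h : c * c + s * s = 1) :
    hf ![-(c : ℂ), (s : ℂ), 0] ![-(c : ℂ), (s : ℂ), 0] = 1 := by
  rw [exi_hf, star_neg, show star (c : ℂ) = (c : ℂ) from Complex.conj_ofReal c,
    show star (s : ℂ) = (s : ℂ) from Complex.conj_ofReal s]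
  have h5 : -(c : ℂ) * -(c : ℂ) + (s : ℂ) * (s : ℂ) - 0 * star (0 : ℂ) =
    ((c * c + s * s : ℝ) : ℂ) := by push_cast; ring
  rw [h5, h]; norm_num

theorem exi_unit2 (X Y : ℂ) (W : ℝ) (h : ‖X‖ ^ 2 + ‖Y‖ ^ 2 - W * W = 1) :
    hf ![X, Y, (W : ℂ)] ![X, Y, (W : ℂ)] = 1 := by
  rw [exi_hf, exi_ns, exi_ns, show star (W : ℂ) = (W : ℂ) from Complex.conj_ofReal W]
  have h5 : ((‖X‖ ^ 2 : ℝ) : ℂ) + ((‖Y‖ ^ 2 : ℝ) : ℂ) - (W : ℂ) * (W : ℂ) =
    ((‖X‖ ^ 2 + ‖Y‖ ^ 2 - W * W : ℝ) : ℂ) := by push_cast; ring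
  rw [h5, h]; norm_num

theorem exi_indep (c : ℂ) (s W X Y : ℂ) (hs : s ≠ 0) (hW : W ≠ 0) :
    LinearIndependent ℂ (![![1, 0, 0], ![c, s, 0], ![X, Y, W]] : Fin 3 → V3) := by
  rw [Fintype.linearIndependent_iff]
  intro g hg
  rw [Fin.sum_univ_three] at hg
  have hg2 := congrFun hg 2
  have hg1 := congrFun hg 1
  have hg0 := congrFun hg 0
  have k2 : g 2 = 0 := by
    have : g 2 * W = 0 := by simpa using hg2
    exact (mul_eq_zero.1 this).resolve_right hW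
  have k1 : g 1 = 0 := by
    have h1 : g 1 * s + g 2 * Y = 0 := by simpa using hg1
    rw [k2, zero_mul, add_zero] at h1
    exact (mul_eq_zero.1 h1).resolve_right hs
  have k0 : g 0 = 0 := by
    have h1 : g 0 + g 1 * c + g 2 * X = 0 := by simpa using hg0
    rw [k1, k2] at h1
    simpa using h1
  intro i
  fin_cases i
  · exact k0
  · exact k1
  · exact k2

theorem st_EXI : ST_EXI := by
  intro p q r hp hq hr θ hθ
  obtain ⟨hc1, hc1'⟩ := exi_cos p hp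
  obtain ⟨hc2, hc2'⟩ := exi_cos q hq
  obtain ⟨hc3, hc3'⟩ := exi_cos r hr
  set c1 := Real.cos (Real.pi / p) with hc1d
  set c2 := Real.cos (Real.pi / q) with hc2d
  set c3 := Real.cos (Real.pi / r) with hc3d
  have h2 : 0 < Real.sqrt 2 := by positivity
  have hh : (1 / Real.sqrt 2) ^ 2 = 1 / 2 := by
    rw [div_pow, one_pow, Real.sq_sqrt (by norm_num)]
  have hpos : 0 < 1 / Real.sqrt 2 := by positivity
  have hc1p : 0 < c1 := lt_of_lt_of_le hpos hc1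
  have hc2p : 0 < c2 := lt_of_lt_of_le hpos hc2
  have hc3p : 0 < c3 := lt_of_lt_of_le hpos hc3
  have q1 : 1 / 2 ≤ c1 ^ 2 := by rw [← hh]; exact pow_le_pow_left₀ hpos.le hc1 2
  have q2 : 1 / 2 ≤ c2 ^ 2 := by rw [← hh]; exact pow_le_pow_left₀ hpos.le hc2 2
  have q3 : 1 / 2 ≤ c3 ^ 2 := by rw [← hh]; exact pow_le_pow_left₀ hpos.le hc3 2
  have hs2 : 0 < 1 - c1 ^ 2 := by nlinarith
  set s := Real.sqrt (1 - c1 ^ 2) with hs
  have hsp : 0 < s := Real.sqrt_pos.2 hs2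
  have hss : s ^ 2 = 1 - c1 ^ 2 := Real.sq_sqrt hs2.le
  have habs := abs_le.1 hθ
  have hcos : 0 ≤ Real.cos θ := Real.cos_nonneg_of_mem_Icc ⟨by linarith [habs.1], habs.2⟩
  set E : ℂ := (Real.cos θ : ℂ) + (Real.sin θ : ℂ) * Complex.I with hE
  have hEn : ‖E‖ ^ 2 = 1 := by
    rw [← Complex.normSq_eq_norm_sq, hE, Complex.normSq_add_mul_I]
    exact Real.cos_sq_add_sin_sq θ
  have hEn1 : ‖E‖ = 1 := by
    have := norm_nonneg E
    nlinarith
  set X : ℂ := -((c3 : ℂ) * E) with hX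
  set Y : ℂ := ((-c2 : ℝ) + (c1 : ℂ) * X) / (s : ℂ) with hY
  have hsC : (s : ℂ) ≠ 0 := by exact_mod_cast hsp.ne'
  have hXn : ‖X‖ ^ 2 = c3 ^ 2 := by
    rw [hX, norm_neg, norm_mul, mul_pow, hEn, Complex.norm_real, Real.norm_of_nonneg hc3p.le,
      mul_one]
  have hYn : ‖Y‖ ^ 2 = (c2 ^ 2 + 2 * c1 * c2 * c3 * Real.cos θ + c1 ^ 2 * c3 ^ 2) / s ^ 2 := by
    rw [hY, norm_div, div_pow, Complex.norm_real, Real.norm_of_nonneg hsp.le]
    congr 1
    have h3 : ((-c2 : ℝ) : ℂ) + (c1 : ℂ) * X = ((-c2 - c1 * c3 * Real.cos θ : ℝ) : ℂ) +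
        ((-(c1 * c3 * Real.sin θ) : ℝ) : ℂ) * Complex.I := by
      rw [hX, hE]; push_cast; ring
    rw [← Complex.normSq_eq_norm_sq, h3, Complex.normSq_add_mul_I]
    linear_combination (c1 ^ 2 * c3 ^ 2) * (Real.cos_sq_add_sin_sq θ)
  set w2 := ‖X‖ ^ 2 + ‖Y‖ ^ 2 - 1 with hw2
  have hw2v : w2 = (c1 ^ 2 + c2 ^ 2 + c3 ^ 2 - 1 + 2 * c1 * c2 * c3 * Real.cos θ) / s ^ 2 := by
    rw [hw2, hXn, hYn, eq_div_iff (by positivity), sub_mul, add_mul,
      div_mul_cancel₀ _ (by positivity), hss]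
    ring
  have hw2p : 0 < w2 := by
    rw [hw2v]
    apply div_pos _ (by positivity)
    have : 0 ≤ 2 * c1 * c2 * c3 * Real.cos θ := by positivity
    linarith
  set W := Real.sqrt w2 with hW
  have hWp : 0 < W := Real.sqrt_pos.2 hw2p
  have hWW : W ^ 2 = w2 := Real.sq_sqrt hw2p.le
  have hst : ∀ x : ℝ, star (x : ℂ) = (x : ℂ) := fun x => Complex.conj_ofReal x
  have hYs : star Y = ((-c2 : ℝ) + (c1 : ℂ) * star X) / (s : ℂ) := by
    rw [hY, star_div₀, star_add, star_mul', hst, hst, hst]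
  have h01 : hf ![1, 0, 0] ![-(c1 : ℂ), (s : ℂ), 0] = -(c1 : ℂ) := by
    rw [exi_hf, star_neg, hst]; ring
  have h20 : hf ![X, Y, (W : ℂ)] ![1, 0, 0] = X := by
    rw [exi_hf, star_one, star_zero]; ring
  have h12 : hf ![-(c1 : ℂ), (s : ℂ), 0] ![X, Y, (W : ℂ)] = -(c2 : ℂ) := by
    rw [exi_hf, hYs, mul_div_cancel₀ _ hsC]
    push_cast; ring
  have hWC : (W : ℂ) ≠ 0 := by exact_mod_cast hWp.ne'
  refine ⟨![![1, 0, 0], ![-(c1 : ℂ), (s : ℂ), 0], ![X, Y, (W : ℂ)]],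
    ⟨?_, ?_, ?_, ?_, exi_indep _ _ _ _ _ hsC hWC⟩, ?_⟩
  · intro i
    fin_cases i
    · change hf ![1, 0, 0] ![1, 0, 0] = 1
      rw [exi_hf, star_one, star_zero]; ring
    · exact exi_unit1 c1 s (by nlinarith)
    · exact exi_unit2 X Y W (by nlinarith)
  · change ‖hf ![1, 0, 0] ![-(c1 : ℂ), (s : ℂ), 0]‖ = c1
    rw [h01, norm_neg, Complex.norm_real, Real.norm_of_nonneg hc1p.le]
  · change ‖hf ![-(c1 : ℂ), (s : ℂ), 0] ![X, Y, (W : ℂ)]‖ = c2
    rw [h12, norm_neg, Complex.norm_real, Real.norm_of_nonneg hc2p.le]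
  · change ‖hf ![X, Y, (W : ℂ)] ![1, 0, 0]‖ = c3
    rw [h20, hX, norm_neg, norm_mul, hEn1, mul_one, Complex.norm_real,
      Real.norm_of_nonneg hc3p.le]
  · change Complex.arg (-(hf ![1, 0, 0] ![-(c1 : ℂ), (s : ℂ), 0] *
      hf ![-(c1 : ℂ), (s : ℂ), 0] ![X, Y, (W : ℂ)] * hf ![X, Y, (W : ℂ)] ![1, 0, 0])) = θ
    rw [h01, h12, h20]
    have h3 : -(-(c1 : ℂ) * -(c2 : ℂ) * X) =
        ((c1 * c2 * c3 : ℝ) : ℂ) * (Complex.cos θ + Complex.sin θ * Complex.I) := by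
      rw [hX, hE]
      push_cast
      ring
    rw [h3]
    apply Complex.arg_mul_cos_add_sin_mul_I (by positivity)
    have := Real.pi_pos
    exact ⟨by linarith [habs.1], by linarith [habs.2]⟩

end Pool.Agent.Helper6.MONO
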